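import Pool.Agent.BER.StmtsE
import Mathlib.Analysis.Distribution.AEEqOfIntegralContDiff
import Mathlib.Topology.ContinuousMap.Weierstrass

set_option autoImplicit false

/-!
# Squad BER, row RDD: invariant functions orthogonal to the powers of `|x|²` vanish
-/

namespace Pool.Agent.BER.H28

open Set Filter Topology MeasureTheory
open Pool.Agent.BE01 Pool.Agent.BEG

theorem fin_dom {d : ℕ} {Ω : Set (En d)} (h : Dom Ω) : IsFiniteMeasure (mu Ω) := by
  constructor
  rw [mu, Measure.restrict_apply_univ]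
  exact h.2.1.measure_lt_top

theorem bd_dom {d : ℕ} {Ω : Set (En d)} (h : Dom Ω) :
    ∃ R : ℝ, 0 ≤ R ∧ ∀ᵐ x ∂(mu Ω), ‖x‖ ^ 2 ∈ Icc (0 : ℝ) R := by
  obtain ⟨C, hC⟩ := h.2.1.exists_norm_le
  refine ⟨C ^ 2, sq_nonneg _, ?_⟩
  have hm : MeasurableSet Ω := h.1.measurableSet
  rw [mu, ae_restrict_iff' hm]
  refine Filter.Eventually.of_forall fun x hx => ⟨sq_nonneg _, ?_⟩
  exact pow_le_pow_left₀ (norm_nonneg _) (hC x hx) 2

theorem int_u {d : ℕ} {Ω : Set (En d)} (h : Dom Ω) (u : Lp ℝ 2 (mu Ω)) :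
    Integrable (fun x => u x) (mu Ω) := by
  have := fin_dom h
  exact (Lp.memLp u).integrable (by norm_num)

theorem int_mul {d : ℕ} {Ω : Set (En d)} (h : Dom Ω) (u : Lp ℝ 2 (mu Ω)) (g : ℝ → ℝ)
    (hg : Continuous g) : Integrable (fun x => u x * g (‖x‖ ^ 2)) (mu Ω) := by
  obtain ⟨R, -, hR⟩ := bd_dom h
  obtain ⟨C, hC⟩ := (isCompact_Icc (a := (0 : ℝ)) (b := R)).exists_bound_of_continuousOn
    hg.continuousOn
  refine (int_u h u).mul_bdd (c := C) ?_ ?_
  · exact (hg.comp (continuous_norm.pow 2)).aestronglyMeasurable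
  · filter_upwards [hR] with x hx
    exact hC _ hx

theorem int_poly {d : ℕ} {Ω : Set (En d)} (h : Dom Ω) (u : Lp ℝ 2 (mu Ω))
    (hb : ∀ b : ℕ, ∫ x, u x * (‖x‖ ^ 2) ^ b ∂(mu Ω) = 0) (p : Polynomial ℝ) :
    ∫ x, u x * p.eval (‖x‖ ^ 2) ∂(mu Ω) = 0 := by
  induction p using Polynomial.induction_on' with
  | add p q hp hq =>
    have e : (fun x => u x * (p + q).eval (‖x‖ ^ 2)) =
        fun x => u x * p.eval (‖x‖ ^ 2) + u x * q.eval (‖x‖ ^ 2) := by
      funext x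
      rw [Polynomial.eval_add, mul_add]
    rw [e, integral_add (int_mul h u _ p.continuous) (int_mul h u _ q.continuous), hp, hq,
      add_zero]
  | monomial n a =>
    have e : (fun x => u x * (Polynomial.monomial n a).eval (‖x‖ ^ 2)) =
        fun x => a * (u x * (‖x‖ ^ 2) ^ n) := by
      funext x
      rw [Polynomial.eval_monomial]
      ring
    rw [e, integral_const_mul, hb, mul_zero]

theorem int_cont {d : ℕ} {Ω : Set (En d)} (h : Dom Ω) (u : Lp ℝ 2 (mu Ω))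
    (hb : ∀ b : ℕ, ∫ x, u x * (‖x‖ ^ 2) ^ b ∂(mu Ω) = 0) (g : ℝ → ℝ) (hg : Continuous g) :
    ∫ x, u x * g (‖x‖ ^ 2) ∂(mu Ω) = 0 := by
  obtain ⟨R, -, hR⟩ := bd_dom h
  set A : ℝ := ∫ x, |u x| ∂(mu Ω) with hA
  have hA0 : 0 ≤ A := integral_nonneg fun x => abs_nonneg _
  have key : ∀ ε : ℝ, 0 < ε → |∫ x, u x * g (‖x‖ ^ 2) ∂(mu Ω)| ≤ ε * A := by
    intro ε hε
    obtain ⟨p, hp⟩ := exists_polynomial_near_of_continuousOn 0 R g hg.continuousOn ε hε
    have e : ∫ x, u x * g (‖x‖ ^ 2) ∂(mu Ω) =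
        ∫ x, (u x * g (‖x‖ ^ 2) - u x * p.eval (‖x‖ ^ 2)) ∂(mu Ω) := by
      rw [integral_sub (int_mul h u _ hg) (int_mul h u _ p.continuous), int_poly h u hb, sub_zero]
    rw [e, ← Real.norm_eq_abs, ← integral_const_mul]
    refine norm_integral_le_of_norm_le ((int_u h u).abs.const_mul ε) ?_
    filter_upwards [hR] with x hx
    rw [← mul_sub, norm_mul, Real.norm_eq_abs, Real.norm_eq_abs, mul_comm, abs_sub_comm]
    exact mul_le_mul_of_nonneg_right (hp _ hx).le (abs_nonneg _)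
  by_contra hne
  have h1 := abs_pos.2 hne
  have h2 := key (|∫ x, u x * g (‖x‖ ^ 2) ∂(mu Ω)| / (2 * (A + 1))) (by positivity)
  have h3 : |∫ x, u x * g (‖x‖ ^ 2) ∂(mu Ω)| / (2 * (A + 1)) * A <
      |∫ x, u x * g (‖x‖ ^ 2) ∂(mu Ω)| := by
    rw [div_mul_eq_mul_div, div_lt_iff₀ (by positivity)]
    nlinarith
  linarith

theorem rdd (irr : IrrStmt) : RddStmt := by
  intro d Ω u hd hΩ hs hi hb
  have := fin_dom hΩ
  obtain ⟨f, hf, hu⟩ := irr d Ω u hd hΩ hs hi
  have hφ : Measurable fun x : En d => ‖x‖ ^ 2 := (continuous_norm.pow 2).measurable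
  set ν : Measure ℝ := (mu Ω).map fun x : En d => ‖x‖ ^ 2 with hν
  have : IsFiniteMeasure ν := Measure.isFiniteMeasure_map _ _
  have hh : Measurable fun t : ℝ => f (Real.sqrt t) := hf.comp Real.continuous_sqrt.measurable
  have hcomp : ∀ x : En d, f (Real.sqrt (‖x‖ ^ 2)) = f ‖x‖ := fun x => by
    rw [Real.sqrt_sq (norm_nonneg x)]
  have hint : Integrable (fun t : ℝ => f (Real.sqrt t)) ν := by
    rw [hν, integrable_map_measure hh.aestronglyMeasurable hφ.aemeasurable]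
    refine (int_u hΩ u).congr ?_
    filter_upwards [hu] with x hx
    rw [hx]
    exact (hcomp x).symm
  have h0 : ∀ᵐ t ∂ν, f (Real.sqrt t) = 0 := by
    refine ae_eq_zero_of_integral_contDiff_smul_eq_zero hint.locallyIntegrable ?_
    intro g hg _
    rw [hν, integral_map hφ.aemeasurable]
    · rw [← int_cont hΩ u hb g hg.continuous]
      refine integral_congr_ae ?_
      filter_upwards [hu] with x hx
      rw [hx, hcomp, smul_eq_mul, mul_comm]
    · exact (hg.continuous.measurable.aestronglyMeasurable).smul hh.aestronglyMeasurable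
  have h1 := ae_of_ae_map hφ.aemeasurable h0
  rw [Lp.eq_zero_iff_ae_eq_zero]
  filter_upwards [hu, h1] with x hx hx1
  rw [hx, ← hcomp]
  exact hx1

end Pool.Agent.BER.H28
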